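import Pool.Agent.W780.PG.Stm

set_option autoImplicit false

/-!
Polar coordinates at a vertex of a convex polygon.
-/

namespace Pool.Agent.W782.PG

open Complex Set Filter Topology Metric
open Pool.Agent.W780.PG

open scoped ContDiff ComplexConjugate Real

/-- polar coordinates around `x`, angles measured from the direction `exp (i a)` -/
noncomputable def pt (x : ℂ) (a ρ t : ℝ) : ℂ := x + (ρ : ℂ) * exp (((a + t : ℝ) : ℂ) * I)

lemma pt_sub (x : ℂ) (a ρ t : ℝ) :
    (pt x a ρ t - x) * exp (-(a : ℂ) * I) = (ρ : ℂ) * exp ((t : ℂ) * I) := by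
  unfold pt
  rw [add_sub_cancel_left, mul_assoc, ← Complex.exp_add]
  congr 2
  push_cast
  ring

lemma norm_pt_sub (x : ℂ) (a ρ t : ℝ) (hρ : 0 ≤ ρ) : ‖pt x a ρ t - x‖ = ρ := by
  unfold pt
  rw [add_sub_cancel_left, norm_mul, Complex.norm_exp_ofReal_mul_I, mul_one, Complex.norm_real,
    Real.norm_of_nonneg hρ]

lemma acoord_pt (x : ℂ) (a ρ t : ℝ) (hρ : 0 < ρ) (h1 : -π < t) (h2 : t ≤ π) :
    acoord x a (pt x a ρ t) = t := by
  unfold acoord
  rw [pt_sub, Complex.arg_real_mul _ hρ, Complex.exp_mul_I]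
  exact Complex.arg_cos_add_sin_mul_I ⟨h1, h2⟩

lemma eq_pt (x : ℂ) (a : ℝ) (z : ℂ) : z = pt x a ‖z - x‖ (acoord x a z) := by
  have h1 : ((z - x) * exp (-(a : ℂ) * I)) = (‖z - x‖ : ℂ) * exp ((acoord x a z : ℂ) * I) := by
    have := Complex.norm_mul_exp_arg_mul_I ((z - x) * exp (-(a : ℂ) * I))
    rw [norm_mul] at this
    have h2 : ‖exp (-(a : ℂ) * I)‖ = 1 := by
      rw [← Complex.ofReal_neg, Complex.norm_exp_ofReal_mul_I]
    rw [h2, mul_one] at this
    exact this.symm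
  unfold pt
  have h3 : exp (((a + acoord x a z : ℝ) : ℂ) * I)
      = exp ((a : ℂ) * I) * exp ((acoord x a z : ℂ) * I) := by
    rw [← Complex.exp_add]; congr 1; push_cast; ring
  have h4 : exp (-(a : ℂ) * I) * exp ((a : ℂ) * I) = 1 := by
    rw [← Complex.exp_add]; simp
  rw [h3]
  linear_combination (-(z - x)) * h4 + exp ((a : ℂ) * I) * h1

lemma acoord_mem (x : ℂ) (a : ℝ) (z : ℂ) : -π < acoord x a z ∧ acoord x a z ≤ π :=
  ⟨Complex.neg_pi_lt_arg _, Complex.arg_le_pi _⟩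

/-- the linear form of a directed line through `x` in polar coordinates -/
lemma im_conj_pt (x : ℂ) (a L b ρ t : ℝ) :
    (conj ((L : ℂ) * exp (((a + b : ℝ) : ℂ) * I)) * (pt x a ρ t - x)).im
      = L * ρ * Real.sin (t - b) := by
  unfold pt
  rw [add_sub_cancel_left, map_mul, Complex.conj_ofReal, ← Complex.exp_conj, map_mul,
    Complex.conj_ofReal, Complex.conj_I]
  have : (L : ℂ) * exp (((a + b : ℝ) : ℂ) * -I) * ((ρ : ℂ) * exp (((a + t : ℝ) : ℂ) * I))
      = ((L * ρ : ℝ) : ℂ) * exp (((t - b : ℝ) : ℂ) * I) := by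
    have h : exp (((a + b : ℝ) : ℂ) * -I) * exp (((a + t : ℝ) : ℂ) * I)
        = exp (((t - b : ℝ) : ℂ) * I) := by
      rw [← Complex.exp_add]; congr 1; push_cast; ring
    push_cast at h ⊢
    linear_combination (L : ℂ) * (ρ : ℂ) * h
  rw [this, Complex.im_ofReal_mul, Complex.exp_ofReal_mul_I_im]

lemma sin_pos_iff {t : ℝ} (h1 : -π < t) (h2 : t ≤ π) : 0 < Real.sin t ↔ 0 < t ∧ t < π := by
  constructor
  · intro h
    refine ⟨?_, ?_⟩
    · by_contra hc
      push Not at hc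
      have := Real.sin_nonpos_of_nonpos_of_neg_pi_le hc h1.le
      linarith
    · rcases h2.lt_or_eq with h3 | h3
      · exact h3
      · rw [h3, Real.sin_pi] at h; exact absurd h (lt_irrefl _)
  · rintro ⟨h3, h4⟩
    exact Real.sin_pos_of_pos_of_lt_pi h3 h4

lemma cone_open {α t : ℝ} (hα : 0 < α) (hα' : α < π) (h1 : -π < t) (h2 : t ≤ π) :
    (0 < Real.sin t ∧ 0 < Real.sin (α - t)) ↔ (0 < t ∧ t < α) := by
  rw [sin_pos_iff h1 h2]
  constructor
  · rintro ⟨⟨h3, h4⟩, h5⟩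
    rw [sin_pos_iff (by linarith) (by linarith)] at h5
    exact ⟨h3, by linarith [h5.1]⟩
  · rintro ⟨h3, h4⟩
    exact ⟨⟨h3, by linarith⟩, Real.sin_pos_of_pos_of_lt_pi (by linarith) (by linarith)⟩

lemma cone_closed {α t : ℝ} (hα : 0 < α) (hα' : α < π) (h1 : -π < t) (h2 : t ≤ π) :
    (0 ≤ Real.sin t ∧ 0 ≤ Real.sin (α - t)) ↔ (0 ≤ t ∧ t ≤ α) := by
  constructor
  · rintro ⟨h3, h4⟩
    have h5 : 0 ≤ t := by
      by_contra hc
      push Not at hc
      have := Real.sin_neg_of_neg_of_neg_pi_lt hc h1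
      linarith
    refine ⟨h5, ?_⟩
    by_contra hc
    push Not at hc
    have := Real.sin_neg_of_neg_of_neg_pi_lt (x := α - t) (by linarith) (by linarith)
    linarith
  · rintro ⟨h3, h4⟩
    exact ⟨Real.sin_nonneg_of_nonneg_of_le_pi h3 (by linarith),
      Real.sin_nonneg_of_nonneg_of_le_pi (by linarith) (by linarith)⟩

section idx

variable {n : ℕ} (i : Fin (n + 3))

lemma succ_ne : i + 1 ≠ i := by
  intro h
  have h2 : (1 : Fin (n + 3)) = 0 := by
    have := congrArg (fun x => x - i) h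
    simpa using this
  have := congrArg Fin.val h2
  simp at this

lemma pred_ne : i - 1 ≠ i := by
  intro h
  apply succ_ne (i - 1)
  rw [sub_add_cancel]; exact h.symm

lemma two_ne : (1 : Fin (n + 3)) + 1 ≠ 0 := by
  intro h
  have := congrArg Fin.val h
  rw [Fin.val_add] at this
  simp only [Fin.val_one, Fin.val_zero] at this
  rw [Nat.mod_eq_of_lt (by omega)] at this
  omega

lemma pred_ne_succ : i - 1 ≠ i + 1 := by
  intro h
  apply two_ne (n := n)
  have h2 : i - 1 + 1 = i + 1 + 1 := by rw [h]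
  rw [sub_add_cancel, add_assoc] at h2
  have := congrArg (fun x => x - i) h2
  simpa using this.symm

end idx

section frame

variable {n : ℕ} {p : Fin (n + 3) → ℂ} (hp : IsConvexPolygon p) (i : Fin (n + 3))

include hp

lemma edge_ne : p (i + 1) - p i ≠ 0 := by
  intro h
  have h1 := hp.pos i (i - 1) (pred_ne i) (pred_ne_succ i)
  unfold lft at h1
  rw [h] at h1
  simp at h1

lemma edge_ne' : p (i - 1) - p i ≠ 0 := by
  have := edge_ne hp (i - 1)
  rw [sub_add_cancel] at this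
  intro h
  apply this
  linear_combination -h

omit hp in
lemma next_eq : p (i + 1) - p i
    = (‖p (i + 1) - p i‖ : ℂ) * exp (((arg (p (i + 1) - p i) + 0 : ℝ) : ℂ) * I) := by
  rw [add_zero]
  exact (Complex.norm_mul_exp_arg_mul_I _).symm

lemma ang_eq : ang p i = arg ((p (i - 1) - p i) / (p (i + 1) - p i)) ∧ 0 < ang p i
    ∧ ang p i < π := by
  have hu := edge_ne hp i
  have hv := edge_ne' hp i
  have h1 := hp.pos i (i - 1) (pred_ne i) (pred_ne_succ i)
  unfold lft at h1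
  have h2 : 0 < ((p (i - 1) - p i) / (p (i + 1) - p i)).im := by
    have h3 : (p (i - 1) - p i) / (p (i + 1) - p i)
        = ((Complex.normSq (p (i + 1) - p i))⁻¹ : ℝ)
          * (conj (p (i + 1) - p i) * (p (i - 1) - p i)) := by
      rw [div_eq_mul_inv, Complex.inv_def]
      push_cast
      ring
    rw [h3, Complex.im_ofReal_mul]
    exact mul_pos (inv_pos.mpr (Complex.normSq_pos.mpr hu)) h1
  set w := (p (i - 1) - p i) / (p (i + 1) - p i) with hw
  have hw0 : w ≠ 0 := div_ne_zero hv hu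
  have h4 : 0 < arg w ∧ arg w < π := by
    rw [← sin_pos_iff (Complex.neg_pi_lt_arg _) (Complex.arg_le_pi _), Complex.sin_arg]
    exact div_pos h2 (norm_pos_iff.mpr hw0)
  have h5 : ang p i = arg w := by
    unfold ang EuclideanGeometry.angle
    rw [vsub_eq_sub, vsub_eq_sub, Complex.angle_eq_abs_arg hv hu, abs_of_pos h4.1]
  exact ⟨h5, by rw [h5]; exact h4.1, by rw [h5]; exact h4.2⟩

lemma prev_eq : p (i - 1) - p i
    = (‖p (i - 1) - p i‖ : ℂ) * exp (((arg (p (i + 1) - p i) + ang p i : ℝ) : ℂ) * I) := by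
  have hu := edge_ne hp i
  have hv := edge_ne' hp i
  have h1 := (ang_eq hp i).1
  set w := (p (i - 1) - p i) / (p (i + 1) - p i) with hw
  have h2 : p (i - 1) - p i = w * (p (i + 1) - p i) := by
    rw [hw]; field_simp
  have h3 : w = (‖w‖ : ℂ) * exp ((ang p i : ℂ) * I) := by
    rw [h1]; exact (Complex.norm_mul_exp_arg_mul_I _).symm
  have h4 : p (i + 1) - p i = (‖p (i + 1) - p i‖ : ℂ) * exp ((arg (p (i + 1) - p i) : ℂ) * I) :=
    (Complex.norm_mul_exp_arg_mul_I _).symm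
  have h5 : (‖p (i - 1) - p i‖ : ℂ) = (‖w‖ : ℂ) * (‖p (i + 1) - p i‖ : ℂ) := by
    rw [h2, norm_mul]; push_cast; ring
  have h6 : exp (((arg (p (i + 1) - p i) + ang p i : ℝ) : ℂ) * I)
      = exp ((arg (p (i + 1) - p i) : ℂ) * I) * exp ((ang p i : ℂ) * I) := by
    rw [← Complex.exp_add]; congr 1; push_cast; ring
  rw [h6, h5]
  calc p (i - 1) - p i = w * (p (i + 1) - p i) := h2
    _ = ((‖w‖ : ℂ) * exp ((ang p i : ℂ) * I)) *
        ((‖p (i + 1) - p i‖ : ℂ) * exp ((arg (p (i + 1) - p i) : ℂ) * I)) := by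
        rw [← h3, ← h4]
    _ = _ := by ring

lemma lft_next (ρ t : ℝ) : lft (p i) (p (i + 1)) (pt (p i) (arg (p (i + 1) - p i)) ρ t)
    = ‖p (i + 1) - p i‖ * ρ * Real.sin t := by
  have h := im_conj_pt (p i) (arg (p (i + 1) - p i)) ‖p (i + 1) - p i‖ 0 ρ t
  rw [← next_eq i, sub_zero] at h
  exact h

lemma lft_prev (ρ t : ℝ) : lft (p (i - 1)) (p (i - 1 + 1)) (pt (p i) (arg (p (i + 1) - p i)) ρ t)
    = ‖p (i - 1) - p i‖ * ρ * Real.sin (ang p i - t) := by
  have h := im_conj_pt (p i) (arg (p (i + 1) - p i)) ‖p (i - 1) - p i‖ (ang p i) ρ t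
  rw [← prev_eq hp i] at h
  rw [sub_add_cancel]
  have h2 : Real.sin (ang p i - t) = - Real.sin (t - ang p i) := by
    rw [← Real.sin_neg]; congr 1; ring
  rw [h2]
  set z := pt (p i) (arg (p (i + 1) - p i)) ρ t
  have h3 : lft (p (i - 1)) (p i) z = -(conj (p (i - 1) - p i) * (z - p i)).im := by
    unfold lft
    simp only [map_sub, Complex.mul_im, Complex.sub_re, Complex.sub_im, Complex.conj_re,
      Complex.conj_im]
    ring
  rw [h3, h]
  ring

lemma len_pos : 0 < ‖p (i + 1) - p i‖ := norm_pos_iff.mpr (edge_ne hp i)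

lemma len_pos' : 0 < ‖p (i - 1) - p i‖ := norm_pos_iff.mpr (edge_ne' hp i)

/-- the open cone at a vertex -/
lemma open_iff (z : ℂ) (hz : 0 < ‖z - p i‖) :
    (0 < lft (p i) (p (i + 1)) z ∧ 0 < lft (p (i - 1)) (p (i - 1 + 1)) z) ↔
    (0 < acoord (p i) (arg (p (i + 1) - p i)) z ∧
      acoord (p i) (arg (p (i + 1) - p i)) z < ang p i) := by
  obtain ⟨-, h0, hπ⟩ := ang_eq hp i
  have h1 := acoord_mem (p i) (arg (p (i + 1) - p i)) z
  have h2 := eq_pt (p i) (arg (p (i + 1) - p i)) z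
  have h3 := lft_next hp i ‖z - p i‖ (acoord (p i) (arg (p (i + 1) - p i)) z)
  have h4 := lft_prev hp i ‖z - p i‖ (acoord (p i) (arg (p (i + 1) - p i)) z)
  rw [← h2] at h3 h4
  rw [h3, h4, mul_pos_iff_of_pos_left (mul_pos (len_pos hp i) hz),
    mul_pos_iff_of_pos_left (mul_pos (len_pos' hp i) hz)]
  exact cone_open h0 hπ h1.1 h1.2

/-- the closed cone at a vertex -/
lemma closed_iff (z : ℂ) (hz : 0 < ‖z - p i‖) :
    (0 ≤ lft (p i) (p (i + 1)) z ∧ 0 ≤ lft (p (i - 1)) (p (i - 1 + 1)) z) ↔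
    (0 ≤ acoord (p i) (arg (p (i + 1) - p i)) z ∧
      acoord (p i) (arg (p (i + 1) - p i)) z ≤ ang p i) := by
  obtain ⟨-, h0, hπ⟩ := ang_eq hp i
  have h1 := acoord_mem (p i) (arg (p (i + 1) - p i)) z
  have h2 := eq_pt (p i) (arg (p (i + 1) - p i)) z
  have h3 := lft_next hp i ‖z - p i‖ (acoord (p i) (arg (p (i + 1) - p i)) z)
  have h4 := lft_prev hp i ‖z - p i‖ (acoord (p i) (arg (p (i + 1) - p i)) z)
  rw [← h2] at h3 h4
  rw [h3, h4, mul_nonneg_iff_of_pos_left (mul_pos (len_pos hp i) hz),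
    mul_nonneg_iff_of_pos_left (mul_pos (len_pos' hp i) hz)]
  exact cone_closed h0 hπ h1.1 h1.2

end frame

lemma lft_continuous (a b : ℂ) : Continuous (lft a b) := by
  unfold lft
  fun_prop

/-- finitely many strict inequalities persist nearby -/
lemma near {n : ℕ} (p : Fin (n + 3) → ℂ) (x : ℂ) (S : Set (Fin (n + 3)))
    (h : ∀ k ∈ S, 0 < lft (p k) (p (k + 1)) x) :
    ∃ ε > 0, ∀ z, ‖z - x‖ < ε → ∀ k ∈ S, 0 < lft (p k) (p (k + 1)) z := by
  have h1 : ∀ᶠ z in 𝓝 x, ∀ k, k ∈ S → 0 < lft (p k) (p (k + 1)) z := by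
    rw [Filter.eventually_all]
    intro k
    by_cases hk : k ∈ S
    · filter_upwards [(lft_continuous (p k) (p (k + 1))).continuousAt.eventually
        (lt_mem_nhds (h k hk))] with z hz _ using hz
    · exact Filter.Eventually.of_forall fun z hz => absurd hz hk
  rw [Metric.eventually_nhds_iff] at h1
  obtain ⟨ε, hε, h2⟩ := h1
  refine ⟨ε, hε, fun z hz => h2 ?_⟩
  rwa [dist_eq_norm]

lemma lft_self (a b : ℂ) : lft a b a = 0 := by simp [lft]

lemma lft_self' (a b : ℂ) : lft a b b = 0 := by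
  unfold lft
  rw [mul_comm, Complex.mul_conj]
  exact Complex.ofReal_im _

lemma sec_vertex {n : ℕ} {p : Fin (n + 3) → ℂ} (hp : IsConvexPolygon p) (i : Fin (n + 3)) :
    Sec (reg p) (p i) (arg (p (i + 1) - p i)) (ang p i) := by
  obtain ⟨-, h0, hπ⟩ := ang_eq hp i
  refine ⟨h0, hπ.le, ?_⟩
  obtain ⟨ε, hε, h⟩ := near p (p i) {k | k ≠ i ∧ k ≠ i - 1} (by
    rintro k ⟨h1, h2⟩
    apply hp.pos k i h1.symm
    intro h3
    apply h2
    rw [h3, add_sub_cancel_right])
  refine ⟨ε, hε, fun z hz hz' => ?_⟩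
  rw [← open_iff hp i z hz]
  constructor
  · intro h1
    exact ⟨h1 i, h1 (i - 1)⟩
  · rintro ⟨h1, h2⟩ k
    by_cases hk : k = i
    · rw [hk]; exact h1
    · by_cases hk' : k = i - 1
      · rw [hk']; exact h2
      · exact h z hz' k ⟨hk, hk'⟩

lemma sec_side {n : ℕ} {p : Fin (n + 3) → ℂ} (hp : IsConvexPolygon p) (i : Fin (n + 3)) (x : ℂ)
    (hx : lft (p i) (p (i + 1)) x = 0) (hx' : ∀ k, k ≠ i → 0 < lft (p k) (p (k + 1)) x) :
    Sec (reg p) x (arg (p (i + 1) - p i)) π := by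
  refine ⟨Real.pi_pos, le_rfl, ?_⟩
  obtain ⟨ε, hε, h⟩ := near p x {k | k ≠ i} (fun k hk => hx' k hk)
  refine ⟨ε, hε, fun z hz hz' => ?_⟩
  have h1 := acoord_mem x (arg (p (i + 1) - p i)) z
  have h2 := eq_pt x (arg (p (i + 1) - p i)) z
  have h3 := im_conj_pt x (arg (p (i + 1) - p i)) ‖p (i + 1) - p i‖ 0 ‖z - x‖
    (acoord x (arg (p (i + 1) - p i)) z)
  rw [← next_eq i, sub_zero, ← h2] at h3
  have h4 : lft (p i) (p (i + 1)) z = (conj (p (i + 1) - p i) * (z - x)).im := by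
    have : lft (p i) (p (i + 1)) z = (conj (p (i + 1) - p i) * (z - x)).im
        + lft (p i) (p (i + 1)) x := by
      unfold lft
      rw [← Complex.add_im]
      congr 1
      ring
    rw [this, hx, add_zero]
  rw [← sin_pos_iff h1.1 h1.2, ← mul_pos_iff_of_pos_left (mul_pos (len_pos hp i) hz), ← h3, ← h4]
  constructor
  · intro h5
    exact h5 i
  · intro h5 k
    by_cases hk : k = i
    · rw [hk]; exact h5
    · exact h z hz' k hk

/-- PG-SECS -/
theorem secs (hB : S_Basic) : S_Secs := by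
  intro n p hp
  obtain ⟨-, -, -, -, -, -, -, -, -, -, -, -, hside, -⟩ := hB n p hp
  exact ⟨fun i => sec_vertex hp i, fun i z hz =>
    sec_side hp i z (hside i z hz).2.1 (hside i z hz).2.2⟩

end Pool.Agent.W782.PG
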